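import Pool.Agent.Q295.PN.StmK

/-! Project PN (helper295), job A1: lower bound for the variances of the longest chains. -/

set_option autoImplicit false

namespace Pool.Agent.Q162.PN

open MeasureTheory ProbabilityTheory Finset
open Pool.Agent.W533.LP Pool.Agent.Q295.PN

section
variable {Ω : Type} [MeasurableSpace Ω] {μ : Measure Ω} [IsProbabilityMeasure μ]

lemma var_sub_le {X Y : Ω → ℝ} (hX : MemLp X 2 μ) (hY : MemLp Y 2 μ) :
    variance (fun ω => X ω - Y ω) μ ≤ 2 * variance X μ + 2 * variance Y μ := by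
  have h1 := variance_fun_add hX hY
  have h2 := variance_fun_sub hX hY
  have h3 := variance_nonneg (fun ω => X ω + Y ω) μ
  linarith

lemma var_le_cmp {X Y : Ω → ℝ} (hX : MemLp X 2 μ) (hY : MemLp Y 2 μ) :
    variance X μ ≤ 2 * variance Y μ + 2 * ∫ ω, (X ω - Y ω) ^ 2 ∂μ := by
  have hXY : MemLp (fun ω => X ω - Y ω) 2 μ := hX.sub hY
  have h1 := variance_fun_add hXY hY
  have h2 := variance_fun_sub hXY hY
  have h3 := variance_nonneg (fun ω => (X ω - Y ω) - Y ω) μ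
  have h4 := variance_le_expectation_sq hXY.aestronglyMeasurable
  have h5 : (fun ω => (X ω - Y ω) + Y ω) = X := by
    funext ω
    ring
  rw [h5] at h1
  have h6 : ∫ ω, ((fun ω => X ω - Y ω) ^ 2) ω ∂μ = ∫ ω, (X ω - Y ω) ^ 2 ∂μ := rfl
  rw [h6] at h4
  linarith

end

/-- the variance of the longest chain -/
lemma var_ind (hKP : S_KP) (hTL : S_TL) {Ω : Type} [MeasurableSpace Ω] {μ : Measure Ω}
    [IsProbabilityMeasure μ] {q : ℝ} {W : ℕ → ℕ → Ω → ℕ} (hq : 0 < q) (hq1 : q < 1)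
    (hW : Bulk μ q W) (m n : ℕ) (hf : MemLp (fun ω => (Tr (ind W) m n ω : ℝ)) 2 μ) :
    variance (fun ω => (Tr (ind W) m n ω : ℝ)) μ =
      Vr q (fun κ : Fin m × Fin n → Bool => (Lc κ : ℝ)) := by
  have h1 : ∀ ω, Tr (ind W) m n ω =
      Lc (fun v : Fin m × Fin n => decide (1 ≤ W v.1 v.2 ω)) := fun ω =>
    hTL m n (fun i j => W i j ω)
  rw [variance_eq_sub hf, Vr]
  have h2 : ∫ ω, ((fun ω => (Tr (ind W) m n ω : ℝ)) ^ 2) ω ∂μ =
      Ex q (fun κ : Fin m × Fin n → Bool => ((Lc κ : ℝ)) ^ 2) := by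
    rw [← hKP μ q W m n (fun κ => ((Lc κ : ℝ)) ^ 2) hq hq1 hW]
    refine integral_congr_ae (Filter.Eventually.of_forall fun ω => ?_)
    simp only [Pi.pow_apply, h1]
  have h3 : ∫ ω, (fun ω => (Tr (ind W) m n ω : ℝ)) ω ∂μ =
      Ex q (fun κ : Fin m × Fin n → Bool => (Lc κ : ℝ)) := by
    rw [← hKP μ q W m n (fun κ => (Lc κ : ℝ)) hq hq1 hW]
    refine integral_congr_ae (Filter.Eventually.of_forall fun ω => ?_)
    simp only [h1]
  rw [h2, h3]

/-- JOB A1 -/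
theorem a1 : S_A1 := by
  intro hK11 hKP hTL hK10
  obtain ⟨C, hC, hK11⟩ := hK11
  obtain ⟨c, ν₀, hc, hν₀, hK10⟩ := hK10
  refine ⟨c / 8, max ν₀ ((96 * C / c) ^ (100 / 58 : ℝ)), by positivity, le_max_of_le_left hν₀, ?_⟩
  intro q N M K hq hq1 hν hν4 hKN hNM hM2 hs hs1 hs2
  have hν' : ν₀ ≤ N * Real.sqrt q := (le_max_left _ _).trans hν
  have hν'' : (96 * C / c) ^ (100 / 58 : ℝ) ≤ N * Real.sqrt q := (le_max_right _ _).trans hν
  obtain ⟨Ω, _, μ, X, hX⟩ := lExist (ℕ × ℕ) (fun _ => q) (fun _ => ⟨hq.le, by linarith⟩)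
  have hW : Bulk μ q (fun i j => X (i, j)) := hX
  have hprob : IsProbabilityMeasure μ := hX.prob
  have h1 := hK10 μ q _ N M K hq hq1 hν' hKN hNM hs hs1 hs2 hW
  have e1 := hK11 μ q _ M K hq hq1 hW
  have e2 := hK11 μ q _ N N hq hq1 hW
  have hq2 : Real.sqrt q ^ 4 = q ^ 2 := by
    have : Real.sqrt q ^ 2 = q := Real.sq_sqrt hq.le
    calc Real.sqrt q ^ 4 = (Real.sqrt q ^ 2) ^ 2 := by ring
      _ = q ^ 2 := by rw [this]
  have hN1 : (0 : ℝ) < N := by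
    rcases Nat.eq_zero_or_pos N with h | h
    · rw [h] at hν'
      simp at hν'
      linarith
    · exact_mod_cast h
  have hNq : (N : ℝ) * N * q ^ 2 ≤ 1 := by
    have h2 : (N : ℝ) ^ 2 * ((N : ℝ) * N * q ^ 2) ≤ (N : ℝ) ^ 2 * 1 := by
      calc (N : ℝ) ^ 2 * ((N : ℝ) * N * q ^ 2) = (N * Real.sqrt q) ^ 4 := by
            rw [mul_pow, hq2]; ring
        _ ≤ (N : ℝ) ^ 2 * 1 := by rw [mul_one]; exact hν4
    exact le_of_mul_le_mul_left h2 (by positivity)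
  have hMK : (M : ℝ) * K * q ^ 2 ≤ 2 := by
    have h3 : (M : ℝ) ≤ 2 * N := by exact_mod_cast hM2
    have h4 : (K : ℝ) ≤ N := by exact_mod_cast hKN
    have h5 : (M : ℝ) * K ≤ 2 * N * N := by
      have : (0 : ℝ) ≤ K := Nat.cast_nonneg _
      nlinarith
    calc (M : ℝ) * K * q ^ 2 ≤ 2 * N * N * q ^ 2 :=
          mul_le_mul_of_nonneg_right h5 (by positivity)
      _ = 2 * (N * N * q ^ 2) := by ring
      _ ≤ 2 := by linarith
  have b1 : C * ((M : ℝ) * K * q ^ 2) * (1 + M * K * q ^ 2) ≤ 6 * C := by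
    have h0 : 0 ≤ (M : ℝ) * K * q ^ 2 := by positivity
    have h6 : ((M : ℝ) * K * q ^ 2) * (1 + M * K * q ^ 2) ≤ 6 := by nlinarith
    calc C * ((M : ℝ) * K * q ^ 2) * (1 + M * K * q ^ 2) =
          C * (((M : ℝ) * K * q ^ 2) * (1 + M * K * q ^ 2)) := by ring
      _ ≤ C * 6 := mul_le_mul_of_nonneg_left h6 (by linarith)
      _ = 6 * C := by ring
  have b2 : C * ((N : ℝ) * N * q ^ 2) * (1 + N * N * q ^ 2) ≤ 6 * C := by
    have h0 : 0 ≤ (N : ℝ) * N * q ^ 2 := by positivity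
    have h6 : ((N : ℝ) * N * q ^ 2) * (1 + N * N * q ^ 2) ≤ 6 := by nlinarith
    calc C * ((N : ℝ) * N * q ^ 2) * (1 + N * N * q ^ 2) =
          C * (((N : ℝ) * N * q ^ 2) * (1 + N * N * q ^ 2)) := by ring
      _ ≤ C * 6 := mul_le_mul_of_nonneg_left h6 (by linarith)
      _ = 6 * C := by ring
  have c1 := var_le_cmp e1.1 e1.2.1
  have c2 := var_le_cmp e2.1 e2.2.1
  rw [var_ind hKP hTL hq (by linarith) hW M K e1.2.1] at c1
  rw [var_ind hKP hTL hq (by linarith) hW N N e2.2.1] at c2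
  have c3 := var_sub_le e1.1 e2.1
  have d1 := e1.2.2.trans b1
  have d2 := e2.2.2.trans b2
  have hpos : (0 : ℝ) < N * Real.sqrt q := mul_pos hN1 (Real.sqrt_pos.2 hq)
  have hbig : 96 * C / c ≤ (N * Real.sqrt q) ^ (58 / 100 : ℝ) := by
    have h7 : (0 : ℝ) ≤ 96 * C / c := by positivity
    calc 96 * C / c = ((96 * C / c) ^ (100 / 58 : ℝ)) ^ (58 / 100 : ℝ) := by
          rw [← Real.rpow_mul h7]
          norm_num
      _ ≤ (N * Real.sqrt q) ^ (58 / 100 : ℝ) :=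
          Real.rpow_le_rpow (by positivity) hν'' (by norm_num)
  have hbig' : 96 * C ≤ c * (N * Real.sqrt q) ^ (58 / 100 : ℝ) := by
    rw [div_le_iff₀ hc] at hbig
    linarith
  linarith

end Pool.Agent.Q162.PN
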