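import Pool.Agent.Q295.PN.StmK

/-! Project PN (helper295), job KAC: anti-concentration of a difference of two sums. -/

set_option autoImplicit false

namespace Pool.Agent.Q162.PN

open MeasureTheory ProbabilityTheory Finset
open Pool.Agent.W533.LP Pool.Agent.Q295.PN

lemma gf_comp {Ω ι κ : Type} [MeasurableSpace Ω] {μ : Measure Ω} {p : ι → ℝ} {X : ι → Ω → ℕ}
    (h : GeoFam μ p X) (g : κ → ι) (hg : Function.Injective g) :
    GeoFam μ (fun k => p (g k)) (fun k => X (g k)) where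
  prob := h.prob
  pos := fun i => h.pos (g i)
  meas := fun i => h.meas (g i)
  indep := h.indep.precomp hg
  law := fun i k => h.law (g i) k

lemma vari_bd {x : ℝ} (h0 : 0 ≤ x) (h1 : x ≤ 1 / 2) : x ≤ vari x ∧ vari x ≤ 4 * x := by
  have h2 : 0 < (1 - x) ^ 2 := by
    have : 0 < 1 - x := by linarith
    positivity
  constructor
  · rw [vari, le_div_iff₀ h2]
    have : (1 - x) ^ 2 ≤ 1 := by nlinarith
    nlinarith
  · rw [vari, div_le_iff₀ h2]
    have : 1 / 4 ≤ (1 - x) ^ 2 := by nlinarith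
    nlinarith

/-- variance of a difference of two independent sums -/
lemma var_diff {Ω : Type} [MeasurableSpace Ω] {μ : Measure Ω} {a b : ℝ} {s t : ℕ}
    {X : Fin s → Ω → ℕ} {Y : Fin t → Ω → ℕ} (ha : a ≤ 1 / 2) (hb : b ≤ 1 / 2)
    (h : GeoFam μ (Sum.elim (fun _ : Fin s => a) (fun _ : Fin t => b)) (Sum.elim X Y)) :
    variance (fun ω => ∑ i, (X i ω : ℝ) - ∑ j, (Y j ω : ℝ)) μ = s * vari a + t * vari b := by
  have hprob := h.prob
  have hX : GeoFam μ (fun _ => a) X := gf_comp h Sum.inl Sum.inl_injective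
  have hY : GeoFam μ (fun _ => b) Y := gf_comp h Sum.inr Sum.inr_injective
  obtain ⟨C, hC, hm⟩ := lMom (1 / 2) (by norm_num)
  obtain ⟨lX, eX, vX, fX⟩ := hm μ a s X ha hX
  obtain ⟨lY, eY, vY, fY⟩ := hm μ b t Y hb hY
  let φ : Fin s ⊕ Fin t → ℕ → ℝ := Sum.elim (fun _ k => (k : ℝ)) (fun _ k => -(k : ℝ))
  let Z : Fin s ⊕ Fin t → Ω → ℝ := fun i ω => φ i (Sum.elim X Y i ω)
  have hφ : ∀ i, Measurable (φ i) := fun i => measurable_from_top
  have hZi : iIndepFun Z μ := h.indep.comp φ hφ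
  have single : ∀ (c : ℝ) (U : Ω → ℕ), c ≤ 1 / 2 → GeoFam μ (fun _ : Unit => c) (fun _ => U) →
      MemLp (fun ω => (U ω : ℝ)) 2 μ := by
    intro c U hc hU
    have hU' : GeoFam μ (fun _ : Fin 1 => c) (fun _ => U) :=
      ⟨hU.prob, fun _ => hU.pos (), fun _ => hU.meas (), iIndepFun.of_subsingleton,
        fun _ k => hU.law () k⟩
    have h1 := (hm μ c 1 (fun _ => U) hc hU').1
    simp only [univ_unique, sum_singleton] at h1
    exact h1.mono_exponent (by norm_num)
  have hL : ∀ i, MemLp (Z i) 2 μ := by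
    rintro (i | j)
    · exact single a (X i) ha ⟨hX.prob, fun _ => hX.pos i, fun _ => hX.meas i,
        iIndepFun.of_subsingleton, fun _ k => hX.law i k⟩
    · exact (single b (Y j) hb ⟨hY.prob, fun _ => hY.pos j, fun _ => hY.meas j,
        iIndepFun.of_subsingleton, fun _ k => hY.law j k⟩).neg
  have v1 := IndepFun.variance_sum (μ := μ) (X := Z) (s := univ) (fun i _ => hL i)
    (fun i _ j _ hij => hZi.indepFun hij)
  have v2 := IndepFun.variance_sum (μ := μ) (X := fun i => Z (Sum.inl i)) (s := univ)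
    (fun i _ => hL _) (fun i _ j _ hij => hZi.indepFun (fun e => hij (Sum.inl_injective e)))
  have v3 := IndepFun.variance_sum (μ := μ) (X := fun j => Z (Sum.inr j)) (s := univ)
    (fun i _ => hL _) (fun i _ j _ hij => hZi.indepFun (fun e => hij (Sum.inr_injective e)))
  rw [Fintype.sum_sum_type, Fintype.sum_sum_type, ← v2, ← v3] at v1
  have f1 : (∑ i, Z (Sum.inl i) : Ω → ℝ) = fun ω => ∑ i, (X i ω : ℝ) := by
    funext ω
    rw [Finset.sum_apply]
    rfl
  have f2 : (∑ j, Z (Sum.inr j) : Ω → ℝ) = fun ω => -∑ j, (Y j ω : ℝ) := by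
    funext ω
    rw [Finset.sum_apply, ← Finset.sum_neg_distrib]
    rfl
  rw [f1, f2] at v1
  rw [show (fun ω => ∑ i, (X i ω : ℝ) - ∑ j, (Y j ω : ℝ)) =
    ((fun ω => ∑ i, (X i ω : ℝ)) + fun ω => -∑ j, (Y j ω : ℝ)) from by
      funext ω; simp only [Pi.add_apply]; ring, v1, variance_fun_neg, vX, vY]

/-- JOB KAC -/
theorem kac : S_KAC := by
  intro hK1
  obtain ⟨C₁, hC₁, hK1⟩ := hK1
  obtain ⟨C₀, hC₀, hm⟩ := lMom (1 / 2) (by norm_num)
  set C : ℝ := 176 * C₁ with hC
  have hCp : 0 < C := by rw [hC]; positivity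
  set α : ℝ := Real.sqrt (1 / (2 * C)) with hα
  have hαp : 0 < α := Real.sqrt_pos.2 (by positivity)
  have hα2 : α ^ 2 * (2 * C) ≤ 1 := by
    rw [hα, Real.sq_sqrt (by positivity)]
    apply le_of_eq
    field_simp
  set κ₁ : ℝ := α * 1 / 2 with hκ₁
  have hκ₁p : 0 < κ₁ := by rw [hκ₁]; positivity
  set δ : ℝ := κ₁ / (8 * 20) with hδ
  have hδp : 0 < δ := by rw [hδ]; positivity
  refine ⟨min (κ₁ / 8) (δ * κ₁), lt_min (by positivity) (by positivity), ?_⟩
  intro Ω _ μ a b s t X Y ha ha2 hb hb2 hsa htb h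
  set κ : ℝ := min (κ₁ / 8) (δ * κ₁) with hκ
  have hκ0 : 0 ≤ κ := le_of_lt (lt_min (by positivity) (by positivity))
  have hprob := h.prob
  have hX : GeoFam μ (fun _ => a) X := gf_comp h Sum.inl Sum.inl_injective
  have hY : GeoFam μ (fun _ => b) Y := gf_comp h Sum.inr Sum.inr_injective
  obtain ⟨lX, eX, -, -⟩ := hm μ a s X ha2 hX
  obtain ⟨lY, eY, -, -⟩ := hm μ b t Y hb2 hY
  have fX := hK1 μ a s X ha.le ha2 hX
  have fY := hK1 μ b t Y hb hb2 hY
  have hv := var_diff ha2 hb2 h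
  set S : Ω → ℝ := fun ω => ∑ i, (X i ω : ℝ) - ∑ j, (Y j ω : ℝ) with hS
  have hSL : MemLp S 4 μ := lX.sub lY
  have iX : Integrable (fun ω => ∑ i, (X i ω : ℝ)) μ := lX.integrable (by norm_num)
  have iY : Integrable (fun ω => ∑ j, (Y j ω : ℝ)) μ := lY.integrable (by norm_num)
  have hSE : ∫ ω, S ω ∂μ = s * mean a - t * mean b := by
    rw [hS]
    simp only
    rw [integral_sub iX iY, eX, eY]
  set Z : Ω → ℝ := fun ω => S ω - (s * mean a - t * mean b) with hZ
  have hZL : MemLp Z 4 μ := hSL.sub (memLp_const _)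
  have hZm : Measurable Z := by
    refine Measurable.sub_const (Measurable.sub ?_ ?_) _
    · exact Finset.measurable_fun_sum _ fun i _ =>
        (measurable_from_top (f := fun k : ℕ => (k : ℝ))).comp (hX.meas i)
    · exact Finset.measurable_fun_sum _ fun i _ =>
        (measurable_from_top (f := fun k : ℕ => (k : ℝ))).comp (hY.meas i)
  have hSI : Integrable S μ := hSL.integrable (by norm_num)
  have hZ1 : ∫ ω, Z ω ∂μ = 0 := by
    rw [hZ]
    simp only
    rw [integral_sub hSI (integrable_const _), hSE]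
    simp
  have hZ2 : ∫ ω, (Z ω) ^ 2 ∂μ = s * vari a + t * vari b := by
    rw [variance_eq_integral hSI.aemeasurable, hSE] at hv
    exact hv
  set σ : ℝ := s * a with hσ
  have hσp : 0 < σ := by linarith
  set r : ℝ := Real.sqrt σ with hr
  have hrp : 0 < r := Real.sqrt_pos.2 hσp
  have hr2 : r ^ 2 = σ := Real.sq_sqrt hσp.le
  have hr4 : r ^ 4 = σ ^ 2 := by
    have : r ^ 4 = (r ^ 2) ^ 2 := by ring
    rw [this, hr2]
  have va := vari_bd ha.le ha2
  have vb := vari_bd hb hb2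
  have hs0 : (0 : ℝ) ≤ s := Nat.cast_nonneg _
  have ht0 : (0 : ℝ) ≤ t := Nat.cast_nonneg _
  have m1 := mul_le_mul_of_nonneg_left va.1 hs0
  have m2 := mul_le_mul_of_nonneg_left va.2 hs0
  have m3 := mul_le_mul_of_nonneg_left vb.1 ht0
  have m4 := mul_le_mul_of_nonneg_left vb.2 ht0
  have htb0 : 0 ≤ (t : ℝ) * b := by positivity
  have hlow : 1 * r ^ 2 ≤ ∫ ω, (Z ω) ^ 2 ∂μ := by
    rw [hZ2, hr2]
    linarith
  have hupp : ∫ ω, (Z ω) ^ 2 ∂μ ≤ 20 * r ^ 2 := by
    rw [hZ2, hr2]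
    linarith
  have hfour : ∫ ω, (Z ω) ^ 4 ∂μ ≤ C * r ^ 4 := by
    rw [hr4]
    have cX : MemLp (fun ω => ∑ i, (X i ω : ℝ) - s * mean a) 4 μ := lX.sub (memLp_const _)
    have cY : MemLp (fun ω => ∑ i, (Y i ω : ℝ) - t * mean b) 4 μ := lY.sub (memLp_const _)
    have jX : Integrable (fun ω => (∑ i, (X i ω : ℝ) - s * mean a) ^ 4) μ := by
      have := cX.integrable_norm_pow (p := 4) (by norm_num)
      refine this.congr (Filter.Eventually.of_forall fun ω => ?_)
      simp only [Real.norm_eq_abs]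
      exact Even.pow_abs (by decide) _
    have jY : Integrable (fun ω => (∑ i, (Y i ω : ℝ) - t * mean b) ^ 4) μ := by
      have := cY.integrable_norm_pow (p := 4) (by norm_num)
      refine this.congr (Filter.Eventually.of_forall fun ω => ?_)
      simp only [Real.norm_eq_abs]
      exact Even.pow_abs (by decide) _
    have jZ : Integrable (fun ω => (Z ω) ^ 4) μ := by
      have := hZL.integrable_norm_pow (p := 4) (by norm_num)
      refine this.congr (Filter.Eventually.of_forall fun ω => ?_)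
      simp only [Real.norm_eq_abs]
      exact Even.pow_abs (by decide) _
    have k1 : ∫ ω, (Z ω) ^ 4 ∂μ ≤ ∫ ω, (8 * (∑ i, (X i ω : ℝ) - s * mean a) ^ 4 +
        8 * (∑ i, (Y i ω : ℝ) - t * mean b) ^ 4) ∂μ := by
      refine integral_mono jZ ((jX.const_mul 8).add (jY.const_mul 8)) fun ω => ?_
      simp only [hZ, hS]
      set x : ℝ := ∑ i, (X i ω : ℝ) - s * mean a with hx
      set y : ℝ := ∑ i, (Y i ω : ℝ) - t * mean b with hy
      have e : ∑ i, (X i ω : ℝ) - ∑ j, (Y j ω : ℝ) - (s * mean a - t * mean b) = x - y := by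
        rw [hx, hy]; ring
      rw [e]
      have w1 : (x - y) ^ 2 ≤ 2 * (x ^ 2 + y ^ 2) := by
        have := sq_nonneg (x + y)
        linarith [this, (by ring : (x + y) ^ 2 = x ^ 2 + 2 * (x * y) + y ^ 2),
          (by ring : (x - y) ^ 2 = x ^ 2 - 2 * (x * y) + y ^ 2)]
      have w2 := pow_le_pow_left₀ (sq_nonneg (x - y)) w1 2
      have w3 := sq_nonneg (x ^ 2 - y ^ 2)
      linarith [w2, w3, (by ring : ((x - y) ^ 2) ^ 2 = (x - y) ^ 4),
        (by ring : (2 * (x ^ 2 + y ^ 2)) ^ 2 = 8 * x ^ 4 + 8 * y ^ 4 - 4 * (x ^ 2 - y ^ 2) ^ 2)]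
    rw [integral_add (jX.const_mul 8) (jY.const_mul 8), integral_const_mul,
      integral_const_mul] at k1
    have k2 : (t : ℝ) * b ≤ 4 * σ := htb
    have k3 : ((t : ℝ) * b) ^ 2 ≤ 16 * σ ^ 2 := by nlinarith
    have k4 : σ ≤ σ ^ 2 := by nlinarith
    have k5 : C₁ * ((s * a) ^ 2 + s * a) ≤ C₁ * (2 * σ ^ 2) :=
      mul_le_mul_of_nonneg_left (by rw [← hσ]; linarith) hC₁.le
    have k6 : C₁ * ((t * b) ^ 2 + t * b) ≤ C₁ * (20 * σ ^ 2) :=
      mul_le_mul_of_nonneg_left (by linarith) hC₁.le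
    rw [hC]
    linarith
  constructor
  · have := Pool.Agent.W990.LP.Mom.pz hZm hZL one_pos (by norm_num : (0 : ℝ) < 20) hCp hrp hZ1
      hlow hupp hfour hαp hα2 hκ₁ hδ hκ0 (min_le_left _ _) (min_le_right _ _)
    refine this.trans (le_of_eq ?_)
    congr 1
    ext ω
    simp only [Set.mem_ofPred_eq, hZ, hS]
    constructor <;> intro h <;> linarith
  · have hneg1 : ∫ ω, (fun ω => - Z ω) ω ∂μ = 0 := by
      simp only
      rw [integral_neg, hZ1, neg_zero]
    have hneg2 : ∀ k : ℕ, Even k → ∫ ω, ((fun ω => - Z ω) ω) ^ k ∂μ = ∫ ω, (Z ω) ^ k ∂μ := by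
      intro k hk
      congr 1
      ext ω
      simp only
      rw [hk.neg_pow]
    have := Pool.Agent.W990.LP.Mom.pz (Z := fun ω => - Z ω) hZm.neg hZL.neg one_pos
      (by norm_num : (0 : ℝ) < 20) hCp hrp hneg1
      (by rw [hneg2 2 (by decide)]; exact hlow) (by rw [hneg2 2 (by decide)]; exact hupp)
      (by rw [hneg2 4 (by decide)]; exact hfour) hαp hα2 hκ₁ hδ hκ0
      (min_le_left _ _) (min_le_right _ _)
    refine this.trans (le_of_eq ?_)
    congr 1
    ext ω
    simp only [Set.mem_ofPred_eq, hZ, hS]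
    constructor <;> intro h <;> linarith

end Pool.Agent.Q162.PN
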