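import Pool.Agent.Q162.PN.Kac

/-! Project PN (helper295), job KT: moments of the point to point time. -/

set_option autoImplicit false

namespace Pool.Agent.Q162.PN

open MeasureTheory ProbabilityTheory Finset
open Pool.Agent.W533.LP Pool.Agent.Q295.PN

/-- `G` as the sum of the increments -/
lemma gr_sum {Ω : Type} [MeasurableSpace Ω] (I J : ℕ → Ω → ℕ) (W : ℕ → ℕ → Ω → ℕ) (m n : ℕ)
    (ω : Ω) : (Gr I J W m n ω : ℝ) =
      ∑ i : Fin m, (Ninc I J W n i ω : ℝ) + ∑ j : Fin n, (J j ω : ℝ) := by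
  induction m with
  | zero =>
    rw [Finset.univ_eq_empty, Finset.sum_empty, zero_add]
    induction n with
    | zero => simp [Gr, G]
    | succ n ih =>
      rw [Fin.sum_univ_castSucc]
      simp only [Fin.val_castSucc, Fin.val_last]
      rw [← ih]
      simp only [Gr, G]
      push_cast
      ring
  | succ m ih =>
    rw [Fin.sum_univ_castSucc]
    simp only [Fin.val_castSucc, Fin.val_last]
    have h1 : Gr I J W m n ω ≤ Gr I J W (m + 1) n ω :=
      (lMeas.2.2 (fun i => I i ω) (fun j => J j ω) (fun i j => W i j ω) m n).1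
    have h2 : (Ninc I J W n m ω : ℝ) = (Gr I J W (m + 1) n ω : ℝ) - Gr I J W m n ω := by
      rw [Ninc, Nat.cast_sub h1]
    rw [h2]
    linarith

lemma pow4_le (x y : ℝ) : (x + y) ^ 4 ≤ 8 * x ^ 4 + 8 * y ^ 4 := by
  have w1 : (x + y) ^ 2 ≤ 2 * (x ^ 2 + y ^ 2) := by
    have := sq_nonneg (x - y)
    linarith [this, (by ring : (x + y) ^ 2 = x ^ 2 + 2 * (x * y) + y ^ 2),
      (by ring : (x - y) ^ 2 = x ^ 2 - 2 * (x * y) + y ^ 2)]
  have w2 := pow_le_pow_left₀ (sq_nonneg (x + y)) w1 2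
  have w3 := sq_nonneg (x ^ 2 - y ^ 2)
  linarith [w2, w3, (by ring : ((x + y) ^ 2) ^ 2 = (x + y) ^ 4),
    (by ring : (2 * (x ^ 2 + y ^ 2)) ^ 2 = 8 * x ^ 4 + 8 * y ^ 4 - 4 * (x ^ 2 - y ^ 2) ^ 2)]

lemma int_pow4 {Ω : Type} [MeasurableSpace Ω] {μ : Measure Ω} [IsProbabilityMeasure μ]
    {Z : Ω → ℝ} (h : MemLp Z 4 μ) : Integrable (fun ω => (Z ω) ^ 4) μ := by
  have := h.integrable_norm_pow (p := 4) (by norm_num)
  refine this.congr (Filter.Eventually.of_forall fun ω => ?_)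
  simp only [Real.norm_eq_abs]
  exact Even.pow_abs (by decide) _

/-- fourth moment of a sum of geometric variables -/
lemma four_sum (h1 : S_K1) : ∃ C : ℝ, 1 ≤ C ∧ ∀ {Ω : Type} [MeasurableSpace Ω] (μ : Measure Ω)
    (a u : ℝ) (n : ℕ) (X : Fin n → Ω → ℕ), 0 ≤ a → a ≤ 1 / 2 → n * a ≤ u → 1 ≤ u →
    GeoFam μ (fun _ => a) X →
    MemLp (fun ω => ∑ i, (X i ω : ℝ)) 4 μ ∧ ∫ ω, (∑ i, (X i ω : ℝ)) ^ 4 ∂μ ≤ C * u ^ 4 := by
  obtain ⟨C₁, hC₁, h1⟩ := h1
  obtain ⟨C₀, hC₀, hm⟩ := lMom (1 / 2) (by norm_num)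
  refine ⟨16 * C₁ + 128, by linarith, ?_⟩
  intro Ω _ μ a u n X ha ha2 hna hu hX
  have hprob := hX.prob
  obtain ⟨lX, eX, -, -⟩ := hm μ a n X ha2 hX
  have fX := h1 μ a n X ha ha2 hX
  refine ⟨lX, ?_⟩
  have cX : MemLp (fun ω => ∑ i, (X i ω : ℝ) - n * mean a) 4 μ := lX.sub (memLp_const _)
  have jX := int_pow4 cX
  have j0 := int_pow4 lX
  have k1 : ∫ ω, (∑ i, (X i ω : ℝ)) ^ 4 ∂μ ≤
      ∫ ω, (8 * (∑ i, (X i ω : ℝ) - n * mean a) ^ 4 + 8 * (n * mean a) ^ 4) ∂μ := by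
    refine integral_mono j0 ((jX.const_mul 8).add (integrable_const _)) fun ω => ?_
    have h := pow4_le (∑ i, (X i ω : ℝ) - n * mean a) (n * mean a)
    rwa [sub_add_cancel] at h
  rw [integral_add (jX.const_mul 8) (integrable_const _), integral_const_mul] at k1
  simp only [integral_const, probReal_univ, one_smul] at k1
  have hn0 : (0 : ℝ) ≤ n := Nat.cast_nonneg _
  have hmean : mean a ≤ 2 * a := by
    rw [mean, div_le_iff₀ (by linarith)]
    nlinarith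
  have hmean0 : 0 ≤ mean a := div_nonneg ha (by linarith)
  have hna0 : 0 ≤ (n : ℝ) * a := by positivity
  have q1 : (n * mean a) ^ 4 ≤ 16 * u ^ 4 := by
    have : n * mean a ≤ 2 * u := by
      have := mul_le_mul_of_nonneg_left hmean hn0
      linarith
    have h2 := pow_le_pow_left₀ (by positivity) this 4
    linarith [(by ring : (2 * u) ^ 4 = 16 * u ^ 4)]
  have hu2 : u ≤ u ^ 2 := by nlinarith
  have hu4 : u ^ 2 ≤ u ^ 4 := pow_le_pow_right₀ hu (by norm_num)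
  have q2 : (n * a) ^ 2 + n * a ≤ 2 * u ^ 4 := by
    have h3 := pow_le_pow_left₀ hna0 hna 2
    linarith
  have q3 := mul_le_mul_of_nonneg_left q2 hC₁.le
  linarith

/-- JOB KT -/
theorem kt : S_KT := by
  intro hK1
  obtain ⟨C, hC, hF⟩ := four_sum hK1
  refine ⟨16 * C, by linarith, ?_⟩
  intro Ω _ μ q W m n hq hq1 hW
  have hprob : IsProbabilityMeasure μ := hW.prob
  set r : ℝ := Real.sqrt q with hr
  have hr0 : 0 < r := Real.sqrt_pos.2 hq
  have hr2 : r ^ 2 = q := Real.sq_sqrt hq.le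
  have hr4 : r ≤ 1 / 4 := by
    have : r ^ 2 ≤ (1 / 4) ^ 2 := by rw [hr2]; linarith
    exact le_of_sq_le_sq this (by norm_num) |> fun h => h
  have hqr : q < r := by nlinarith
  have hqr' : q / r = r := by
    rw [div_eq_iff hr0.ne']
    rw [← hr2]
    ring
  obtain ⟨Ω', _, μ', I, J, W', X, hS⟩ := lSys (κ := Empty) q r (fun _ => 0) hq hqr (by linarith)
    (fun k => k.elim)
  obtain ⟨hS0, hB⟩ := (lOps μ' q).1 r I J W' _ X hS
  have hprob' : IsProbabilityMeasure μ' := hB.prob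
  obtain ⟨lG, eG, -, -⟩ := lVarId μ' q r I J W' hq hqr (by linarith) hS0 m n
  -- the fourth moment of `G`
  have hBk := lBurke μ' q r I J W' _ _ hq hqr (by linarith) hS0 m n
  have gN : GeoFam μ' (fun _ : Fin m => r) (fun i : Fin m => Ninc I J W' n i) :=
    gf_comp hBk (Sum.inl : Fin m → Fin m ⊕ (Fin n ⊕ Empty)) Sum.inl_injective
  have gJ : GeoFam μ' (fun _ : Fin n => q / r) (fun j : Fin n => J j) :=
    gf_comp hS0 (fun j : Fin n => (Sum.inr (Sum.inl (j : ℕ)) : ℕ ⊕ ℕ ⊕ (ℕ × ℕ) ⊕ Empty))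
      (fun i j h => Fin.ext (Sum.inl_injective (Sum.inr_injective h)))
  rw [hqr'] at gJ
  have hm0 : (0 : ℝ) ≤ m := Nat.cast_nonneg _
  have hn0 : (0 : ℝ) ≤ n := Nat.cast_nonneg _
  have hu1 : (1 : ℝ) ≤ ((m : ℝ) + n) * r + 1 := by
    have : 0 ≤ ((m : ℝ) + n) * r := by positivity
    linarith
  have hmr : 0 ≤ (m : ℝ) * r := by positivity
  have hnr : 0 ≤ (n : ℝ) * r := by positivity
  obtain ⟨lA, fA⟩ := hF μ' r (((m : ℝ) + n) * r + 1) m _ hr0.le (by linarith)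
    (by linarith [(by ring : ((m : ℝ) + n) * r + 1 = m * r + n * r + 1)]) hu1 gN
  obtain ⟨lB, fB⟩ := hF μ' r (((m : ℝ) + n) * r + 1) n _ hr0.le (by linarith)
    (by linarith [(by ring : ((m : ℝ) + n) * r + 1 = m * r + n * r + 1)]) hu1 gJ
  have fG : ∫ ω, (Gr I J W' m n ω : ℝ) ^ 4 ∂μ' ≤ 16 * C * (((m : ℝ) + n) * r + 1) ^ 4 := by
    have k1 : ∫ ω, (Gr I J W' m n ω : ℝ) ^ 4 ∂μ' ≤
        ∫ ω, (8 * (∑ i : Fin m, (Ninc I J W' n i ω : ℝ)) ^ 4 +
          8 * (∑ j : Fin n, (J j ω : ℝ)) ^ 4) ∂μ' := by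
      refine integral_mono (int_pow4 lG)
        (((int_pow4 lA).const_mul 8).add ((int_pow4 lB).const_mul 8)) fun ω => ?_
      simp only
      rw [gr_sum I J W' m n ω]
      exact pow4_le _ _
    rw [integral_add ((int_pow4 lA).const_mul 8) ((int_pow4 lB).const_mul 8),
      integral_const_mul, integral_const_mul] at k1
    linarith
  -- comparison of `T` and `G`
  have hTG : ∀ ω, (Tr W' m n ω : ℝ) ≤ (Gr I J W' m n ω : ℝ) := by
    intro ω
    have := lMono zero (fun i => I i ω) zero (fun j => J j ω) (fun i j => W' i j ω)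
      (fun i j => W' i j ω) (fun k => by simp [ps, zero]) (fun k => by simp [ps, zero])
      (fun _ _ => le_rfl) m n
    exact_mod_cast this
  have mF : Measurable (fun w : ℕ → ℕ → ℕ => (T w m n : ℝ)) := by
    have h1 := lMeas.1 m n
    have h2 : Measurable (fun w : ℕ → ℕ → ℕ =>
        ((zero, zero, w) : (ℕ → ℕ) × (ℕ → ℕ) × (ℕ → ℕ → ℕ))) :=
      measurable_const.prodMk (measurable_const.prodMk measurable_id)
    exact (measurable_from_top (f := fun k : ℕ => (k : ℝ))).comp (h1.comp h2)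
  have hid := lLawB μ μ' q W W' hW hB _ mF
  have mT' : AEStronglyMeasurable (fun ω => (Tr W' m n ω : ℝ)) μ' :=
    hid.aemeasurable_snd.aestronglyMeasurable
  have lT' : MemLp (fun ω => (Tr W' m n ω : ℝ)) 4 μ' := by
    refine lG.mono mT' (Filter.Eventually.of_forall fun ω => ?_)
    rw [Real.norm_of_nonneg (Nat.cast_nonneg _), Real.norm_of_nonneg (Nat.cast_nonneg _)]
    exact hTG ω
  have lT : MemLp (fun ω => (Tr W m n ω : ℝ)) 4 μ := hid.memLp_iff.2 lT'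
  refine ⟨lT, ?_, ?_⟩
  · have h4 := (hid.comp (u := fun x : ℝ => x ^ 4) (by fun_prop)).integral_eq
    have h5 : ∫ ω, (Tr W m n ω : ℝ) ^ 4 ∂μ = ∫ ω, (Tr W' m n ω : ℝ) ^ 4 ∂μ' := h4
    rw [h5]
    refine le_trans (integral_mono (int_pow4 lT') (int_pow4 lG) fun ω => ?_) fG
    exact pow_le_pow_left₀ (Nat.cast_nonneg _) (hTG ω) 4
  · have h5 : ∫ ω, (Tr W m n ω : ℝ) ∂μ = ∫ ω, (Tr W' m n ω : ℝ) ∂μ' := hid.integral_eq
    rw [h5]
    refine le_trans (integral_mono (lT'.integrable (by norm_num)) (lG.integrable (by norm_num))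
      fun ω => hTG ω) ?_
    rw [eG, hqr']
    exact le_of_eq (by ring)

end Pool.Agent.Q162.PN
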